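import Pool.Agent.Helper3K.OV.Wr
import Mathlib.Computability.Reduce

/-!
# The reduction of systems to single equations for one-relator groups
-/

set_option autoImplicit false

namespace Pool.Agent.Helper3K.OV

open Pool.Agent.N582.BS

/-- The system of the one-variable equations `u = 1`, for `u` in the list `us`, has a solution in
the group `⟨x_0, …, x_{n-1} | r⟩`: one element `g` satisfies all of them. -/
def SolvesAll {n : ℕ} (r : FreeGroup (Fin n)) (us : List (List (Option (Fin n) × Bool))) : Prop :=
  ∃ g : OneRel r, ∀ u ∈ us, evalAt r g u = 1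

/-- The simultaneous conjugacy problem of the group `⟨x_0, …, x_{n-1} | r⟩`: given a list of pairs
of words, is there one element `g` such that `g u g⁻¹ = v` for each pair `(u, v)` in the list? -/
def SimConj {n : ℕ} (r : FreeGroup (Fin n))
    (ps : List (List (Fin n × Bool) × List (Fin n × Bool))) : Prop :=
  ∃ g : OneRel r, ∀ p ∈ ps,
    g * ev (fun i => (PresentedGroup.of i : OneRel r)) p.1 * g⁻¹ =
      ev (fun i => (PresentedGroup.of i : OneRel r)) p.2

/-- The word `r`, regarded as a word in three more generators. So `⟨x_0, …, x_{n+2} | rel3 r⟩` is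
the free product of `⟨x_0, …, x_{n-1} | r⟩` and of the free group of rank three with basis
`x_n, x_{n+1}, x_{n+2}`. -/
def rel3 {n : ℕ} (r : FreeGroup (Fin n)) : FreeGroup (Fin (n + 3)) :=
  FreeGroup.map (Fin.castAdd 3) r

/-! ### The words -/

/-- The inclusion of the alphabets. -/
def upLetter {n : ℕ} (o : Option (Fin n)) : Option (Fin (n + 3)) := o.map (Fin.castAdd 3)

/-- A word over the smaller alphabet as a word over the larger one. -/
def up {n : ℕ} (w : List (Option (Fin n) × Bool)) : List (Option (Fin (n + 3)) × Bool) :=
  w.map (fun l => (upLetter l.1, l.2))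

/-- The three new letters. -/
def letE (n : ℕ) : Option (Fin (n + 3)) := some (Fin.natAdd n 0)

/-- The second new letter. -/
def letS (n : ℕ) : Option (Fin (n + 3)) := some (Fin.natAdd n 1)

/-- The third new letter. -/
def letT (n : ℕ) : Option (Fin (n + 3)) := some (Fin.natAdd n 2)

/-- The word `s ^ (2 ^ a) t ^ (4 ^ a)`. -/
def posW (n a : ℕ) : List (Option (Fin (n + 3)) × Bool) :=
  List.replicate (2 ^ a) (letS n, true) ++ List.replicate (4 ^ a) (letT n, true)

/-- The word for a block. -/
def block (n a : ℕ) (u : List (Option (Fin n) × Bool)) : List (Option (Fin (n + 3)) × Bool) :=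
  posW n a ++ (up u ++ [(letE n, true)] ++ winv (up u) ++ [(letE n, false)]) ++ winv (posW n a)

/-- The combined word. -/
def combine {n : ℕ} (us : List (List (Option (Fin n) × Bool))) :
    List (Option (Fin (n + 3)) × Bool) :=
  ((List.range (3 * us.length)).map (fun a => block n a (us.getD (a % us.length) []))).flatten

theorem ev_up {n : ℕ} {H : Type} [Group H] (f : Option (Fin (n + 3)) → H)
    (w : List (Option (Fin n) × Bool)) : ev f (up w) = ev (fun o => f (upLetter o)) w :=
  ev_map f upLetter w

theorem ev_posW {n : ℕ} {H : Type} [Group H] (f : Option (Fin (n + 3)) → H) (a : ℕ) :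
    ev f (posW n a) = pos (f (letS n)) (f (letT n)) a := by
  rw [posW, ev_append, ev_replicate, ev_replicate, pos]

theorem ev_block {n : ℕ} {H : Type} [Group H] (f : Option (Fin (n + 3)) → H) (a : ℕ)
    (u : List (Option (Fin n) × Bool)) :
    ev f (block n a u) = blk (f (letS n)) (f (letT n)) (f (letE n))
      (ev (fun o => f (upLetter o)) u) a := by
  rw [block, ev_append, ev_append, ev_append, ev_append, ev_append, ev_winv, ev_winv, ev_posW,
    ev_up, blk, ev_cons, ev_cons, ev_nil]
  simp

theorem ev_combine {n : ℕ} {H : Type} [Group H] (f : Option (Fin (n + 3)) → H)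
    (us : List (List (Option (Fin n) × Bool))) :
    ev f (combine us) = tot (f (letS n)) (f (letT n)) (f (letE n))
      (fun a => ev (fun o => f (upLetter o)) (us.getD (a % us.length) [])) (3 * us.length) := by
  rw [combine, ev_flatten, tot, List.map_map]
  congr 1
  apply List.map_congr_left
  intro a _
  exact ev_block f a _

/-! ### The group -/

theorem system_iff {n : ℕ} (r : FreeGroup (Fin n)) (us : List (List (Option (Fin n) × Bool))) :
    SolvesAll r us ↔ OneVarEq (rel3 r) (combine us) := by
  classical
  -- the homomorphism from `OneRel r` to `OneRel (rel3 r)`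
  have hrel : ∀ w ∈ ({r} : Set (FreeGroup (Fin n))),
      FreeGroup.lift (fun i => (PresentedGroup.of (Fin.castAdd 3 i) : OneRel (rel3 r))) w = 1 := by
    intro w hw
    rw [Set.mem_singleton_iff.1 hw]
    have h1 : FreeGroup.lift (fun i => (PresentedGroup.of (Fin.castAdd 3 i) : OneRel (rel3 r))) =
        (PresentedGroup.mk ({rel3 r} : Set (FreeGroup (Fin (n + 3))))).comp
          (FreeGroup.map (Fin.castAdd 3)) := by
      apply FreeGroup.ext_hom
      intro i
      simp [PresentedGroup.of]
    rw [h1]
    exact PresentedGroup.one_of_mem (rels := {rel3 r}) (Set.mem_singleton _)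
  let j : OneRel r →* OneRel (rel3 r) := PresentedGroup.toGroup hrel
  have hj : ∀ i, j (PresentedGroup.of i) = PresentedGroup.of (Fin.castAdd 3 i) :=
    fun i => PresentedGroup.toGroup.of hrel
  have hcases : ∀ (P : Fin (n + 3) → Prop), (∀ i, P (Fin.castAdd 3 i)) → P (Fin.natAdd n 0) →
      P (Fin.natAdd n 1) → P (Fin.natAdd n 2) → ∀ i, P i := by
    intro P h h0 h1 h2 i
    refine Fin.addCases h (fun k => ?_) i
    fin_cases k
    · exact h0
    · exact h1
    · exact h2
  have key := main (G := OneRel r) (H := OneRel (rel3 r)) (fun i => PresentedGroup.of i)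
    (fun i => PresentedGroup.of (Fin.castAdd 3 i)) (PresentedGroup.of (Fin.natAdd n 0))
    (PresentedGroup.of (Fin.natAdd n 1)) (PresentedGroup.of (Fin.natAdd n 2)) j hj
    (by
      intro M _ φ me ms mt
      let f : Fin (n + 3) → M := Fin.addCases (fun i => φ (PresentedGroup.of i)) ![me, ms, mt]
      have hf : ∀ w ∈ ({rel3 r} : Set (FreeGroup (Fin (n + 3)))), FreeGroup.lift f w = 1 := by
        intro w hw
        rw [Set.mem_singleton_iff.1 hw, rel3]
        have h1 : (FreeGroup.lift f).comp (FreeGroup.map (Fin.castAdd 3)) =
            φ.comp (PresentedGroup.mk ({r} : Set (FreeGroup (Fin n)))) := by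
          apply FreeGroup.ext_hom
          intro i
          simp [f, PresentedGroup.of]
        have h2 := DFunLike.congr_fun h1 r
        rw [MonoidHom.comp_apply, MonoidHom.comp_apply,
          PresentedGroup.one_of_mem (rels := {r}) (Set.mem_singleton r), map_one] at h2
        exact h2
      refine ⟨PresentedGroup.toGroup hf, fun i => ?_, ?_, ?_, ?_⟩
      · rw [PresentedGroup.toGroup.of]; simp [f]
      · rw [PresentedGroup.toGroup.of]; simp only [f, Fin.addCases_right]; rfl
      · rw [PresentedGroup.toGroup.of]; simp only [f, Fin.addCases_right]; rfl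
      · rw [PresentedGroup.toGroup.of]; simp only [f, Fin.addCases_right]; rfl)
    (by
      intro M _ Φ Ψ h he hs ht
      apply PresentedGroup.ext
      exact hcases _ h he hs ht)
    us
  have e1 : ∀ (g : OneRel r) (u : List (Option (Fin n) × Bool)),
      evalAt r g u = ev (val (fun i => PresentedGroup.of i) g) u := by
    intro g u
    rw [evalAt]
    congr 1
    funext o
    cases o <;> rfl
  have e2 : ∀ (x : OneRel (rel3 r)), evalAt (rel3 r) x (combine us) =
      tot (PresentedGroup.of (Fin.natAdd n 1)) (PresentedGroup.of (Fin.natAdd n 2))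
        (PresentedGroup.of (Fin.natAdd n 0))
        (fun a => ev (val (fun i => PresentedGroup.of (Fin.castAdd 3 i)) x)
          (us.getD (a % us.length) [])) (3 * us.length) := by
    intro x
    rw [evalAt, ev_combine]
    congr 1
    funext a
    congr 1
    funext o
    cases o <;> rfl
  unfold SolvesAll OneVarEq
  simp only [e1, e2]
  exact key

/-! ### Computability -/

theorem primrec_two_pow : Primrec (fun a : ℕ => 2 ^ a) := by
  refine (Primrec.nat_rec₁ (f := fun _ y => 2 * y) 1
    ((Primrec.nat_mul.comp (Primrec.const 2) Primrec.snd).to₂)).of_eq ?_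
  intro a
  induction a with
  | zero => rfl
  | succ n ih => show 2 * Nat.rec 1 (fun _ y => 2 * y) n = _; rw [ih, pow_succ]; ring

theorem primrec_four_pow : Primrec (fun a : ℕ => 4 ^ a) := by
  refine (Primrec.nat_rec₁ (f := fun _ y => 4 * y) 1
    ((Primrec.nat_mul.comp (Primrec.const 4) Primrec.snd).to₂)).of_eq ?_
  intro a
  induction a with
  | zero => rfl
  | succ n ih => show 4 * Nat.rec 1 (fun _ y => 4 * y) n = _; rw [ih, pow_succ]; ring

theorem primrec_replicate {A : Type} [Primcodable A] (c : A) :
    Primrec (fun m : ℕ => List.replicate m c) := by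
  refine (Primrec.list_map Primrec.list_range ((Primrec.const c).to₂ (α := ℕ) (β := ℕ))).of_eq ?_
  intro m
  simp

theorem primrec_posW (n : ℕ) : Primrec (posW n) := by
  unfold posW
  exact Primrec.list_append.comp ((primrec_replicate _).comp primrec_two_pow)
    ((primrec_replicate _).comp primrec_four_pow)

theorem primrec_up (n : ℕ) : Primrec (up (n := n)) := by
  unfold up
  exact Primrec.list_map Primrec.id
    ((Primrec.dom_finite (fun l : Option (Fin n) × Bool => (upLetter l.1, l.2))).comp
      Primrec.snd).to₂

theorem primrec_winv (n : ℕ) : Primrec (winv (A := Option (Fin n))) := by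
  unfold winv
  exact Primrec.list_reverse.comp (Primrec.list_map Primrec.id
    ((Primrec.dom_finite (fun l : Option (Fin n) × Bool => (l.1, !l.2))).comp Primrec.snd).to₂)

theorem primrec_block (n : ℕ) :
    Primrec (fun p : ℕ × List (Option (Fin n) × Bool) => block n p.1 p.2) := by
  unfold block
  have h1 : Primrec (fun p : ℕ × List (Option (Fin n) × Bool) => posW n p.1) :=
    (primrec_posW n).comp Primrec.fst
  have h2 : Primrec (fun p : ℕ × List (Option (Fin n) × Bool) => up p.2) :=
    (primrec_up n).comp Primrec.snd
  exact Primrec.list_append.comp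
    (Primrec.list_append.comp h1
      (Primrec.list_append.comp
        (Primrec.list_append.comp (Primrec.list_append.comp h2 (Primrec.const _))
          ((primrec_winv (n + 3)).comp h2)) (Primrec.const _)))
    ((primrec_winv (n + 3)).comp h1)

theorem primrec_combine (n : ℕ) : Primrec (combine (n := n)) := by
  have h : Primrec (fun p : List (List (Option (Fin n) × Bool)) × ℕ =>
      block n p.2 (p.1.getD (p.2 % p.1.length) [])) := by
    refine (primrec_block n).comp (Primrec.pair Primrec.snd ?_)
    exact (Primrec.list_getD []).comp Primrec.fst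
      (Primrec.nat_mod.comp Primrec.snd (Primrec.list_length.comp Primrec.fst))
  unfold combine
  exact Primrec.list_flatten.comp (Primrec.list_map
    (Primrec.list_range.comp (Primrec.nat_mul.comp (Primrec.const 3) Primrec.list_length))
    h.to₂)

theorem system_reducible {n : ℕ} (r : FreeGroup (Fin n)) :
    ManyOneReducible (SolvesAll r) (OneVarEq (rel3 r)) :=
  ⟨combine, (primrec_combine n).to_comp, system_iff r⟩

/-! ### Single equations and simultaneous conjugacy as systems -/

theorem oneVarEq_reducible {n : ℕ} (r : FreeGroup (Fin n)) :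
    ManyOneReducible (OneVarEq r) (SolvesAll r) := by
  refine ⟨fun w => [w], ?_, fun w => ?_⟩
  · exact (Primrec.list_cons.comp Primrec.id (Primrec.const [])).to_comp
  · simp [OneVarEq, SolvesAll]

/-- The word `x u x⁻¹ v⁻¹`. -/
def conjWord {n : ℕ} (p : List (Fin n × Bool) × List (Fin n × Bool)) :
    List (Option (Fin n) × Bool) :=
  [(none, true)] ++ p.1.map (fun l => (some l.1, l.2)) ++ [(none, false)] ++
    winv (p.2.map (fun l => (some l.1, l.2)))

theorem simConj_iff {n : ℕ} (r : FreeGroup (Fin n))
    (ps : List (List (Fin n × Bool) × List (Fin n × Bool))) :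
    SimConj r ps ↔ SolvesAll r (ps.map conjWord) := by
  have h : ∀ (g : OneRel r) (p : List (Fin n × Bool) × List (Fin n × Bool)),
      evalAt r g (conjWord p) =
        g * ev (fun i => (PresentedGroup.of i : OneRel r)) p.1 * g⁻¹ *
          (ev (fun i => (PresentedGroup.of i : OneRel r)) p.2)⁻¹ := by
    intro g p
    rw [evalAt, conjWord, ev_append, ev_append, ev_append, ev_winv, ev_map, ev_map, ev_cons,
      ev_cons, ev_nil]
    simp
  unfold SimConj SolvesAll
  apply exists_congr
  intro g
  constructor
  · intro hg u hu
    obtain ⟨p, hp, rfl⟩ := List.mem_map.1 hu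
    rw [h, hg p hp, mul_inv_cancel]
  · intro hg p hp
    have := hg (conjWord p) (List.mem_map.2 ⟨p, hp, rfl⟩)
    rw [h] at this
    exact mul_inv_eq_one.1 this

theorem simConj_reducible {n : ℕ} (r : FreeGroup (Fin n)) :
    ManyOneReducible (SimConj r) (SolvesAll r) := by
  refine ⟨fun ps => ps.map conjWord, ?_, simConj_iff r⟩
  apply Primrec.to_comp
  have hin : Primrec (fun w : List (Fin n × Bool) =>
      w.map (fun l => ((some l.1, l.2) : Option (Fin n) × Bool))) :=
    Primrec.list_map Primrec.id
      ((Primrec.dom_finite (fun l : Fin n × Bool => ((some l.1, l.2) : Option (Fin n) × Bool))).comp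
        Primrec.snd).to₂
  have hc : Primrec (conjWord (n := n)) := by
    unfold conjWord
    exact Primrec.list_append.comp
      (Primrec.list_append.comp (Primrec.list_append.comp (Primrec.const _)
        (hin.comp Primrec.fst)) (Primrec.const _))
      ((primrec_winv n).comp (hin.comp Primrec.snd))
  exact Primrec.list_map Primrec.id (hc.comp Primrec.snd).to₂

end Pool.Agent.Helper3K.OV
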