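import Mathlib.GroupTheory.CoprodI
import Mathlib.GroupTheory.SemidirectProduct
import Mathlib.GroupTheory.RegularWreathProduct
import Mathlib.Tactic

/-!
# Free products with an infinite cyclic group, and a wreath product

`K G` is the semidirect product of the free product of `ℤ` copies of `G` by `ℤ` (which shifts the
copies): this is the free product of `G` and an infinite cyclic group `⟨e⟩`.
-/

set_option autoImplicit false

namespace Pool.Agent.Helper3K.OV

open Monoid

variable (G : Type) [Group G]

/-- The free product of `ℤ` copies of `G`. -/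
abbrev Q : Type := CoprodI (fun _ : ℤ => G)

variable {G}

/-- The `i`-th copy of `G`. -/
def o (i : ℤ) : G →* Q G := CoprodI.of (M := fun _ : ℤ => G) (i := i)

/-- The shift by `k`. -/
def sh (k : ℤ) : Q G →* Q G := CoprodI.lift (fun i => o (i + k))

theorem sh_o (k i : ℤ) (g : G) : sh k (o i g) = o (i + k) g := by
  simp [sh, o]

theorem homExt {M : Type} [Monoid M] {f g : Q G →* M} (h : ∀ i x, f (o i x) = g (o i x)) : f = g :=
  CoprodI.ext_hom _ _ (fun i => MonoidHom.ext (fun x => h i x))

theorem sh_zero (q : Q G) : sh 0 q = q := by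
  have : (sh 0 : Q G →* Q G) = MonoidHom.id _ := homExt (fun i x => by simp [sh_o])
  rw [this]; rfl

theorem sh_add (k l : ℤ) (q : Q G) : sh (k + l) q = sh k (sh l q) := by
  have : (sh (k + l) : Q G →* Q G) = (sh k).comp (sh l) :=
    homExt (fun i x => by simp only [sh_o, MonoidHom.comp_apply]; congr 1; ring_nf)
  rw [this]; rfl

/-- The action of `ℤ` on the free product of `ℤ` copies of `G`. -/
def act : Multiplicative ℤ →* MulAut (Q G) where
  toFun k :=
    { toFun := sh k.toAdd
      invFun := sh (-k.toAdd)
      left_inv := fun q => by rw [← sh_add]; simp [sh_zero]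
      right_inv := fun q => by rw [← sh_add]; simp [sh_zero]
      map_mul' := fun a b => map_mul _ a b }
  map_one' := by
    ext q
    simp [sh_zero]
  map_mul' a b := by
    ext q
    simp [sh_add]

theorem act_apply (k : Multiplicative ℤ) (q : Q G) : act k q = sh k.toAdd q := rfl

/-- Kill the copies with index at most `m`. -/
def cut (m : ℤ) : Q G →* Q G := CoprodI.lift (fun i => if m < i then o i else 1)

theorem cut_o (m i : ℤ) (g : G) : cut m (o i g) = if m < i then o i g else 1 := by
  by_cases h : m < i
  · simp [cut, o, h]
  · simp [cut, o, h]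

theorem cut_sh (m : ℤ) (q : Q G) : cut (m + 1) (sh 1 q) = sh 1 (cut m q) := by
  have : (cut (m + 1)).comp (sh 1) = (sh 1 : Q G →* Q G).comp (cut m) :=
    homExt (fun i x => by
      simp only [sh_o, MonoidHom.comp_apply, cut_o]
      by_cases h : m < i
      · simp [h, sh_o]
      · simp [h])
  exact DFunLike.congr_fun this q

theorem exists_cut_one (q : Q G) : ∃ m₀ : ℤ, ∀ m, m₀ ≤ m → cut m q = 1 := by
  induction q using CoprodI.induction_on with
  | one => exact ⟨0, fun m _ => map_one _⟩
  | of i x =>
    refine ⟨i, fun m hm => ?_⟩
    have := cut_o (G := G) m i x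
    rw [if_neg (by omega)] at this
    exact this
  | mul x y hx hy =>
    obtain ⟨a, ha⟩ := hx
    obtain ⟨b, hb⟩ := hy
    refine ⟨max a b, fun m hm => ?_⟩
    rw [map_mul, ha m (le_trans (le_max_left _ _) hm), hb m (le_trans (le_max_right _ _) hm), one_mul]

theorem exists_cut_self (q : Q G) : ∃ m₀ : ℤ, ∀ m, m ≤ m₀ → cut m q = q := by
  induction q using CoprodI.induction_on with
  | one => exact ⟨0, fun m _ => map_one _⟩
  | of i x =>
    refine ⟨i - 1, fun m hm => ?_⟩
    have := cut_o (G := G) m i x
    rw [if_pos (by omega)] at this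
    exact this
  | mul x y hx hy =>
    obtain ⟨a, ha⟩ := hx
    obtain ⟨b, hb⟩ := hy
    refine ⟨min a b, fun m hm => ?_⟩
    rw [map_mul, ha m (le_trans hm (min_le_left _ _)), hb m (le_trans hm (min_le_right _ _))]

/-- An element which is fixed by the shift is trivial. -/
theorem eq_one_of_sh {q : Q G} (h : sh 1 q = q) : q = 1 := by
  obtain ⟨a, ha⟩ := exists_cut_one q
  obtain ⟨b, hb⟩ := exists_cut_self q
  have step : ∀ m, cut (m + 1) q = 1 → cut m q = 1 := by
    intro m hm
    have h1 := cut_sh m q
    rw [h, hm] at h1
    have h2 : sh (-1) (sh 1 (cut m q)) = sh (-1) (1 : Q G) := by rw [← h1]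
    rw [← sh_add, map_one] at h2
    simpa [sh_zero] using h2
  have key : ∀ k : ℕ, cut (a - k) q = 1 := by
    intro k
    induction k with
    | zero => exact ha _ (by simp)
    | succ k ih =>
      apply step
      have : a - ((k + 1 : ℕ) : ℤ) + 1 = a - k := by push_cast; ring
      rw [this]; exact ih
  have h3 := key (a - b).toNat
  rw [hb _ (by
    rcases le_total 0 (a - b) with h | h
    · rw [Int.toNat_of_nonneg h]; omega
    · rw [Int.toNat_of_nonpos h]; simp; omega)] at h3
  exact h3

variable (G)

/-- The free product of `G` and an infinite cyclic group. -/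
abbrev K : Type := Q G ⋊[act] Multiplicative ℤ

variable {G}

/-- The generator of the infinite cyclic free factor. -/
def eps : K G := SemidirectProduct.inr (Multiplicative.ofAdd 1)

/-- The canonical embedding of `G`. -/
def emb : G →* K G := SemidirectProduct.inl.comp (o 0)

/-- The fold. -/
def fold : Q G →* G := CoprodI.lift (fun _ => MonoidHom.id G)

theorem fold_o (i : ℤ) (g : G) : fold (o i g) = g := by
  simp [fold, o]

theorem fold_sh (k : ℤ) (q : Q G) : fold (sh k q) = fold q := by
  have : (fold : Q G →* G).comp (sh k) = fold :=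
    homExt (fun i x => by simp only [MonoidHom.comp_apply, sh_o, fold_o])
  exact DFunLike.congr_fun this q

/-- The retraction onto `G` which kills `e`. -/
def tau : K G →* G where
  toFun v := fold v.left
  map_one' := by simp
  map_mul' a b := by simp [act_apply, fold_sh]

theorem tau_emb (g : G) : tau (emb g) = g := by
  simp [tau, emb, fold_o]

theorem tau_eps : tau (eps : K G) = 1 := by
  simp [tau, eps]

/-- The elements which commute with `e` are killed by the retraction. -/
theorem tau_eq_one {v : K G} (h : v * eps = eps * v) : tau v = 1 := by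
  have h1 := congrArg SemidirectProduct.left h
  simp only [eps, SemidirectProduct.mul_left, SemidirectProduct.left_inr, map_one, mul_one,
    SemidirectProduct.right_inr, one_mul, act_apply, toAdd_ofAdd] at h1
  have h2 : v.left = 1 := eq_one_of_sh h1.symm
  simp [tau, h2]

end Pool.Agent.Helper3K.OV
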