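import Pool.Agent.Helper3K.OV.Cop
import Pool.Agent.N582.BSDefs

/-!
# The group theory of the reduction of systems to single equations
-/

set_option autoImplicit false

namespace Pool.Agent.Helper3K.OV

open Monoid Pool.Agent.N582.BS

/-! ### Sums of two powers of two -/

theorem pow_pair {a p b q : ℕ} (hap : a ≠ p) (hbq : b ≠ q)
    (h : 2 ^ a + 2 ^ p = 2 ^ b + 2 ^ q) : b = a ∨ b = p := by
  have h1 : ∑ i ∈ ({a, p} : Finset ℕ), 2 ^ i = ∑ i ∈ ({b, q} : Finset ℕ), 2 ^ i := by
    rw [Finset.sum_pair hap, Finset.sum_pair hbq, h]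
  have h2 : ({a, p} : Finset ℕ) = {b, q} := Finset.geomSum_injective (le_refl 2) h1
  have h3 : b ∈ ({a, p} : Finset ℕ) := by rw [h2]; simp
  simpa using h3

/-- The key property of the chosen points `(2 ^ a, 4 ^ a)`. -/
theorem partner {α β : ℤ} (h0 : α ≠ 0 ∨ β ≠ 0) {a p b q : ℕ} (hap : a ≠ p) (hbq : b ≠ q)
    (h1 : α * 2 ^ a - β * 4 ^ a = α * 2 ^ p - β * 4 ^ p)
    (h2 : α * 2 ^ b - β * 4 ^ b = α * 2 ^ q - β * 4 ^ q) : b = a ∨ b = p := by
  have key : ∀ {x y : ℕ}, x ≠ y → α * 2 ^ x - β * 4 ^ x = α * 2 ^ y - β * 4 ^ y →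
      α = β * (2 ^ x + 2 ^ y) := by
    intro x y hxy h
    have e1 : ((4 : ℤ) ^ x) = 2 ^ x * 2 ^ x := by rw [← mul_pow]; norm_num
    have e2 : ((4 : ℤ) ^ y) = 2 ^ y * 2 ^ y := by rw [← mul_pow]; norm_num
    rw [e1, e2] at h
    have hne : ((2 : ℤ) ^ x - 2 ^ y) ≠ 0 := by
      intro hh
      apply hxy
      have : (2 : ℕ) ^ x = 2 ^ y := by
        have : ((2 : ℤ) ^ x) = 2 ^ y := by linarith
        exact_mod_cast this
      exact Nat.pow_right_injective (le_refl 2) this
    apply mul_left_cancel₀ hne
    linear_combination h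
  have ka := key hap h1
  have kb := key hbq h2
  have hβ : β ≠ 0 := by
    intro hβ
    rw [hβ, zero_mul] at ka
    rcases h0 with h | h
    · exact h ka
    · exact h hβ
  have hs : ((2 : ℤ) ^ a + 2 ^ p) = 2 ^ b + 2 ^ q := by
    apply mul_left_cancel₀ hβ
    rw [← ka, ← kb]
  exact pow_pair hap hbq (by exact_mod_cast hs)

/-- Each equation has a place which is shared with no other one. -/
theorem placement {α β : ℤ} (h0 : α ≠ 0 ∨ β ≠ 0) {k i : ℕ} (hi : i < k) :
    ∃ a, a < 3 * k ∧ a % k = i ∧
      ∀ b, b ≠ a → α * 2 ^ b - β * 4 ^ b ≠ α * 2 ^ a - β * 4 ^ a := by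
  by_contra hcon
  push Not at hcon
  have m0 : i % k = i := Nat.mod_eq_of_lt hi
  obtain ⟨p0, hp0, e0⟩ := hcon i (by omega) m0
  obtain ⟨p1, hp1, e1⟩ := hcon (i + k) (by omega) (by rw [Nat.add_mod_right, m0])
  obtain ⟨p2, hp2, e2⟩ := hcon (i + k + k) (by omega)
    (by rw [Nat.add_mod_right, Nat.add_mod_right, m0])
  have a1 := partner h0 hp0.symm hp1.symm e0.symm e1.symm
  have a2 := partner h0 hp0.symm hp2.symm e0.symm e2.symm
  omega

/-! ### The combined word at the level of groups -/

/-- The element `s ^ (2 ^ a) t ^ (4 ^ a)`. -/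
def pos {H : Type} [Group H] (s t : H) (a : ℕ) : H := s ^ (2 ^ a) * t ^ (4 ^ a)

/-- The conjugate of the commutator of `u` and `e` by `s ^ (2 ^ a) t ^ (4 ^ a)`. -/
def blk {H : Type} [Group H] (s t e u : H) (a : ℕ) : H :=
  pos s t a * (u * e * u⁻¹ * e⁻¹) * (pos s t a)⁻¹

/-- The product of the blocks. -/
def tot {H : Type} [Group H] (s t e : H) (U : ℕ → H) (N : ℕ) : H :=
  ((List.range N).map (fun a => blk s t e (U a) a)).prod

theorem map_blk {H M : Type} [Group H] [Group M] (Φ : H →* M) (s t e u : H) (a : ℕ) :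
    Φ (blk s t e u a) = blk (Φ s) (Φ t) (Φ e) (Φ u) a := by
  simp [blk, pos]

theorem map_tot {H M : Type} [Group H] [Group M] (Φ : H →* M) (s t e : H) (U : ℕ → H) (N : ℕ) :
    Φ (tot s t e U N) = tot (Φ s) (Φ t) (Φ e) (fun a => Φ (U a)) N := by
  simp only [tot, map_list_prod, List.map_map]
  congr 1
  apply List.map_congr_left
  intro a _
  exact map_blk Φ s t e (U a) a

theorem prod_range_single {M : Type} [Monoid M] (f : ℕ → M) (a : ℕ) (h : ∀ b, b ≠ a → f b = 1) :
    ∀ N, a < N → ((List.range N).map f).prod = f a := by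
  have h1 : ∀ N, N ≤ a → ((List.range N).map f).prod = 1 := by
    intro N hN
    induction N with
    | zero => simp
    | succ n ih =>
      rw [List.range_succ, List.map_append, List.prod_append, ih (by omega)]
      simp [h n (by omega)]
  intro N
  induction N with
  | zero => intro h; omega
  | succ n ih =>
    intro hN
    rw [List.range_succ, List.map_append, List.prod_append]
    rcases Nat.lt_or_ge a n with hlt | hge
    · rw [ih hlt]; simp [h n (by omega)]
    · have : n = a := by omega
      subst this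
      rw [h1 n (le_refl _)]; simp

section Wreath

variable {D : Type} [Group D]

theorem left_prod {B : Type} [Group B] (l : List (D ≀ᵣ B)) (h : ∀ x ∈ l, x.right = 1) (z : B) :
    l.prod.left z = (l.map (fun x => x.left z)).prod ∧ l.prod.right = 1 := by
  induction l with
  | nil => exact ⟨rfl, rfl⟩
  | cons x l ih =>
    obtain ⟨i1, i2⟩ := ih (fun y hy => h y (List.mem_cons_of_mem _ hy))
    have hx : x.right = 1 := h x List.mem_cons_self
    constructor
    · rw [List.prod_cons, RegularWreathProduct.mul_left, List.map_cons, List.prod_cons, Pi.mul_apply,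
        hx, inv_one, one_mul, i1]
    · rw [List.prod_cons, RegularWreathProduct.mul_right, hx, i2, one_mul]

theorem blk_left {B : Type} [Group B] [DecidableEq B] (σ τ' : B) (ε : D) (V : D ≀ᵣ B)
    (hV : V.right = 1) (a : ℕ) (z : B) :
    (blk (RegularWreathProduct.inl σ) (RegularWreathProduct.inl τ') ⟨Pi.mulSingle 1 ε, 1⟩ V a).left z
      = (if z = pos σ τ' a then V.left 1 * ε * (V.left 1)⁻¹ * ε⁻¹ else 1) ∧
    (blk (RegularWreathProduct.inl σ) (RegularWreathProduct.inl τ') ⟨Pi.mulSingle 1 ε, 1⟩ V a).right
      = 1 := by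
  have hp : pos (RegularWreathProduct.inl σ : D ≀ᵣ B) (RegularWreathProduct.inl τ') a =
      RegularWreathProduct.inl (pos σ τ' a) := by
    simp [pos]
  constructor
  · rw [blk, hp, ← map_inv]
    simp only [RegularWreathProduct.mul_left, RegularWreathProduct.left_inl,
      RegularWreathProduct.right_inl, RegularWreathProduct.inv_left, RegularWreathProduct.mul_right,
      RegularWreathProduct.inv_right, hV, Pi.mul_apply, Pi.one_apply, one_mul, mul_one, inv_one,
      Pi.inv_apply]
    by_cases hz : z = pos σ τ' a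
    · subst hz
      simp
    · have hz' : (pos σ τ' a)⁻¹ * z ≠ 1 := by
        intro h; apply hz; rw [inv_mul_eq_one] at h; exact h.symm
      simp [hz, hz']
  · rw [blk, hp, ← map_inv]
    simp [hV]

/-- If the value of the combined word is trivial, then each component commutes with `ε`. -/
theorem comm_of_tot {α β : ℤ} (h0 : α ≠ 0 ∨ β ≠ 0) (ε : D) {k : ℕ}
    (V : ℕ → D ≀ᵣ (Multiplicative ℤ)) (hV : ∀ a, (V a).right = 1) (c : ℕ → D)
    (hc : ∀ a, (V a).left 1 = c (a % k))
    (h : tot (RegularWreathProduct.inl (Multiplicative.ofAdd α))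
      (RegularWreathProduct.inl (Multiplicative.ofAdd (-β))) ⟨Pi.mulSingle 1 ε, 1⟩ V (3 * k) = 1)
    {i : ℕ} (hi : i < k) : c i * ε = ε * c i := by
  classical
  obtain ⟨a, ha, hai, hne⟩ := placement h0 hi
  set σ := Multiplicative.ofAdd α
  set τ' := Multiplicative.ofAdd (-β)
  have h1 := congrArg (fun x => x.left (pos σ τ' a)) h
  simp only [RegularWreathProduct.one_left, Pi.one_apply] at h1
  rw [tot, (left_prod _ (by
    intro x hx
    rw [List.mem_map] at hx
    obtain ⟨b, _, rfl⟩ := hx
    exact (blk_left σ τ' ε (V b) (hV b) b 1).2) _).1, List.map_map] at h1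
  rw [prod_range_single _ a (by
    intro b hb
    show (blk _ _ _ (V b) b).left (pos σ τ' a) = 1
    rw [(blk_left σ τ' ε (V b) (hV b) b _).1, if_neg]
    intro hh
    apply hne b hb
    have h2 := congrArg Multiplicative.toAdd hh
    simp only [pos, σ, τ', toAdd_mul, toAdd_pow, toAdd_ofAdd, smul_neg, nsmul_eq_mul] at h2
    push_cast at h2
    linarith) (3 * k) ha] at h1
  change (blk _ _ _ (V a) a).left (pos σ τ' a) = 1 at h1
  rw [(blk_left σ τ' ε (V a) (hV a) a _).1, if_pos rfl, hc a, hai] at h1
  have h3 : c i * ε * (c i)⁻¹ = ε := by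
    have := mul_eq_one_iff_eq_inv.1 h1
    rwa [inv_inv] at this
  exact mul_inv_eq_iff_eq_mul.1 h3

end Wreath

/-! ### Words -/

theorem ev_nil {A H : Type} [Group H] (f : A → H) : ev f [] = 1 := rfl

theorem ev_cons {A H : Type} [Group H] (f : A → H) (l : A × Bool) (w : List (A × Bool)) :
    ev f (l :: w) = (if l.2 = true then f l.1 else (f l.1)⁻¹) * ev f w := by
  simp [ev]

theorem ev_append {A H : Type} [Group H] (f : A → H) (v w : List (A × Bool)) :
    ev f (v ++ w) = ev f v * ev f w := by
  simp [ev]

theorem map_ev {A H M : Type} [Group H] [Group M] (Φ : H →* M) (f : A → H)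
    (w : List (A × Bool)) : Φ (ev f w) = ev (fun a => Φ (f a)) w := by
  induction w with
  | nil => simp [ev_nil]
  | cons l w ih =>
    rw [ev_cons, ev_cons, map_mul, ih]
    congr 1
    split_ifs <;> simp

theorem ev_map {A B H : Type} [Group H] (f : B → H) (g : A → B) (w : List (A × Bool)) :
    ev f (w.map (fun l => (g l.1, l.2))) = ev (fun a => f (g a)) w := by
  induction w with
  | nil => simp [ev_nil]
  | cons l w ih => rw [List.map_cons, ev_cons, ev_cons, ih]

/-- The inverse word. -/
def winv {A : Type} (w : List (A × Bool)) : List (A × Bool) :=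
  (w.map (fun l => (l.1, !l.2))).reverse

theorem ev_winv {A H : Type} [Group H] (f : A → H) (w : List (A × Bool)) :
    ev f (winv w) = (ev f w)⁻¹ := by
  induction w with
  | nil => simp [winv, ev_nil]
  | cons l w ih =>
    have : winv (l :: w) = winv w ++ [(l.1, !l.2)] := by simp [winv]
    rw [this, ev_append, ih, ev_cons, ev_cons, ev_nil, mul_inv_rev]
    congr 1
    cases h : l.2 <;> simp

theorem ev_replicate {A H : Type} [Group H] (f : A → H) (a : A) (m : ℕ) :
    ev f (List.replicate m (a, true)) = f a ^ m := by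
  induction m with
  | zero => simp [ev_nil]
  | succ m ih => rw [List.replicate_succ, ev_cons, ih, pow_succ']; simp

theorem ev_flatten {A H : Type} [Group H] (f : A → H) (L : List (List (A × Bool))) :
    ev f L.flatten = (L.map (ev f)).prod := by
  induction L with
  | nil => simp [ev_nil]
  | cons l L ih => rw [List.flatten_cons, ev_append, ih, List.map_cons, List.prod_cons]

/-- The assignment with value `x` for the variable and value `c i` for the constant `i`. -/
def val {ι H : Type} (c : ι → H) (x : H) : Option ι → H := fun o =>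
  match o with
  | none => x
  | some i => c i

theorem ev_left {B D A : Type} [Group B] [Group D] (f : A → D ≀ᵣ B)
    (hf : ∀ a, (f a).right = 1) (w : List (A × Bool)) :
    (ev f w).right = 1 ∧ (ev f w).left 1 = ev (fun a => (f a).left 1) w := by
  induction w with
  | nil => exact ⟨rfl, rfl⟩
  | cons l w ih =>
    obtain ⟨i1, i2⟩ := ih
    rw [ev_cons, ev_cons]
    constructor
    · rw [RegularWreathProduct.mul_right, i1]
      split_ifs <;> simp [hf]
    · rw [RegularWreathProduct.mul_left, Pi.mul_apply]
      split_ifs with h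
      · rw [hf, inv_one, one_mul, i2]
      · rw [RegularWreathProduct.inv_right, RegularWreathProduct.inv_left, hf, inv_one, inv_one,
          one_mul, i2]
        simp

/-- The canonical embedding of the base in the wreath product, at the coordinate `1`. -/
def base {D B : Type} [Group D] [Group B] [DecidableEq B] : D →* D ≀ᵣ B where
  toFun d := ⟨Pi.mulSingle 1 d, 1⟩
  map_one' := by
    ext z
    · simp
    · rfl
  map_mul' a b := by
    ext z
    · simp [Pi.mulSingle_mul]
    · simp

/-- **The group theoretic statement.** `H` is the free product of `G` and of a free group with basis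
`e`, `s`, `t` (this is expressed with the universal property). -/
theorem main {G H ι : Type} [Group G] [Group H] (c : ι → G) (c' : ι → H) (e s t : H)
    (j : G →* H) (hj : ∀ i, j (c i) = c' i)
    (huniv : ∀ (M : Type) [Group M] (φ : G →* M) (me ms mt : M), ∃ Φ : H →* M,
      (∀ i, Φ (c' i) = φ (c i)) ∧ Φ e = me ∧ Φ s = ms ∧ Φ t = mt)
    (hext : ∀ (M : Type) [Group M] (Φ Ψ : H →* M), (∀ i, Φ (c' i) = Ψ (c' i)) → Φ e = Ψ e →
      Φ s = Ψ s → Φ t = Ψ t → Φ = Ψ)
    (us : List (List (Option ι × Bool))) :
    (∃ g : G, ∀ u ∈ us, ev (val c g) u = 1) ↔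
      ∃ x : H, tot s t e (fun a => ev (val c' x) (us.getD (a % us.length) [])) (3 * us.length)
        = 1 := by
  classical
  have hval : ∀ (M : Type) [Group M] (Φ : H →* M) (x : H),
      (fun o => Φ (val c' x o)) = val (fun i => Φ (c' i)) (Φ x) := by
    intro M _ Φ x
    funext o
    cases o <;> rfl
  constructor
  · rintro ⟨g, hg⟩
    refine ⟨j g, ?_⟩
    have hU : ∀ a, ev (val c' (j g)) (us.getD (a % us.length) []) = 1 := by
      intro a
      have h1 : ∀ u, ev (val c g) u = 1 → ev (val c' (j g)) u = 1 := by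
        intro u hu
        have h2 := map_ev j (val c g) u
        rw [hu, map_one] at h2
        have h3 : (fun o => j (val c g o)) = val c' (j g) := by
          funext o
          cases o with
          | none => rfl
          | some i => exact hj i
        rw [h3] at h2
        exact h2.symm
      apply h1
      rcases Nat.lt_or_ge (a % us.length) us.length with hlt | hge
      · rw [List.getD_eq_getElem _ _ hlt]
        exact hg _ (List.getElem_mem hlt)
      · rw [List.getD_eq_default _ _ hge]
        rfl
    have : ∀ a, blk s t e (ev (val c' (j g)) (us.getD (a % us.length) [])) a = 1 := by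
      intro a
      rw [hU a]
      simp [blk]
    simp only [tot]
    apply List.prod_eq_one
    intro y hy
    rw [List.mem_map] at hy
    obtain ⟨a, _, rfl⟩ := hy
    exact this a
  · rintro ⟨x, hx⟩
    obtain ⟨p1, hp1c, hp1e, hp1s, hp1t⟩ := huniv (Multiplicative ℤ) 1 1 (Multiplicative.ofAdd 1) 1
    obtain ⟨p2, hp2c, hp2e, hp2s, hp2t⟩ := huniv (Multiplicative ℤ) 1 1 1 (Multiplicative.ofAdd 1)
    obtain ⟨α, β, h0, hab⟩ : ∃ α β : ℤ, (α ≠ 0 ∨ β ≠ 0) ∧
        α * (p1 x).toAdd - β * (p2 x).toAdd = 0 := by
      by_cases hw : (p1 x).toAdd = 0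
      · exact ⟨1, 0, Or.inl one_ne_zero, by rw [hw]; ring⟩
      · exact ⟨(p2 x).toAdd, (p1 x).toAdd, Or.inr hw, by ring⟩
    obtain ⟨Φ, hΦc, hΦe, hΦs, hΦt⟩ := huniv (K G ≀ᵣ (Multiplicative ℤ)) (base.comp emb)
      (base eps) (RegularWreathProduct.inl (Multiplicative.ofAdd α))
      (RegularWreathProduct.inl (Multiplicative.ofAdd (-β)))
    have hright : (Φ x).right = 1 := by
      have h1 : (RegularWreathProduct.rightHom).comp Φ =
          (zpowGroupHom α).comp p1 * (zpowGroupHom (-β)).comp p2 := by
        apply hext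
        · intro i
          simp [hΦc, hp1c, hp2c, base]
        · simp [hΦe, hp1e, hp2e, base]
        · simp only [MonoidHom.comp_apply, MonoidHom.mul_apply, hΦs, hp1s, hp2s,
            RegularWreathProduct.rightHom_eq_right, RegularWreathProduct.right_inl, map_one,
            mul_one, zpowGroupHom_apply, ← ofAdd_zsmul, smul_eq_mul, mul_one]
        · simp only [MonoidHom.comp_apply, MonoidHom.mul_apply, hΦt, hp1t, hp2t,
            RegularWreathProduct.rightHom_eq_right, RegularWreathProduct.right_inl, map_one,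
            one_mul, zpowGroupHom_apply, ← ofAdd_zsmul, smul_eq_mul, mul_one]
      have h2 := DFunLike.congr_fun h1 x
      simp only [MonoidHom.comp_apply, MonoidHom.mul_apply,
        RegularWreathProduct.rightHom_eq_right, zpowGroupHom_apply] at h2
      rw [h2]
      apply Multiplicative.toAdd.injective
      simp only [toAdd_mul, toAdd_zpow, smul_eq_mul, toAdd_one]
      linarith
    set y : K G := (Φ x).left 1 with hy
    refine ⟨tau y, ?_⟩
    -- the values of the words under `Φ`
    have hword : ∀ u : List (Option ι × Bool), (Φ (ev (val c' x) u)).right = 1 ∧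
        (Φ (ev (val c' x) u)).left 1 = ev (val (fun i => emb (c i)) y) u := by
      intro u
      rw [map_ev, hval]
      have h1 : ∀ o : Option ι, (val (fun i => Φ (c' i)) (Φ x) o).right = 1 := by
        intro o
        cases o with
        | none => exact hright
        | some i => simp [val, hΦc, base]
      obtain ⟨a1, a2⟩ := ev_left _ h1 u
      refine ⟨a1, a2.trans ?_⟩
      congr 1
      funext o
      cases o with
      | none => rfl
      | some i => simp [val, hΦc, base]
    have htot := congrArg Φ hx
    rw [map_tot, map_one, hΦe, hΦs, hΦt] at htot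
    have hcomm := fun (i : ℕ) (hi : i < us.length) => comm_of_tot h0 (eps : K G)
      (k := us.length) _ (fun a => (hword (us.getD (a % us.length) [])).1)
      (fun i => ev (val (fun i => emb (c i)) y) (us.getD i []))
      (fun a => (hword (us.getD (a % us.length) [])).2) htot hi
    intro u hu
    obtain ⟨i, hi, rfl⟩ := List.mem_iff_getElem.1 hu
    have h2 := tau_eq_one (hcomm i hi)
    rw [List.getD_eq_getElem _ _ hi, map_ev] at h2
    have h3 : (fun o => tau (val (fun i => emb (c i)) y o)) = val c (tau y) := by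
      funext o
      cases o with
      | none => rfl
      | some i => simp [val, tau_emb]
    rw [h3] at h2
    exact h2

end Pool.Agent.Helper3K.OV
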